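import Pool.Agent.Y393.RS.Stmts

/-!
# Project RS: degrees of the random graph
-/

set_option autoImplicit false

namespace Pool.Agent.Y232.RG

open Finset
open Pool.Agent.Y393.RS

theorem pr_mono {Ω : Type} [Fintype Ω] {P Q : Ω → Prop} (h : ∀ ω, P ω → Q ω) : pr P ≤ pr Q := by
  classical
  unfold pr
  refine div_le_div_of_nonneg_right ?_ (by positivity)
  have : (univ.filter P).card ≤ (univ.filter Q).card :=
    Finset.card_le_card (Finset.monotone_filter_right _ (fun ω _ hω => h ω hω))
  exact_mod_cast this

theorem pr_congr {Ω : Type} [Fintype Ω] {P Q : Ω → Prop} (h : ∀ ω, P ω ↔ Q ω) : pr P = pr Q := by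
  have : P = Q := funext fun ω => propext (h ω)
  rw [this]

theorem pr_false {Ω : Type} [Fintype Ω] {P : Ω → Prop} (h : ∀ ω, ¬ P ω) : pr P = 0 := by
  classical
  unfold pr
  have : univ.filter P = ∅ := by
    ext ω
    simp [h ω]
  rw [this]
  simp

theorem dgr_formula : S_dgr := by
  classical
  intro n F R hFR v
  have hinj : Function.Injective (fun w : Fin n => s(v, w)) := by
    intro w w' h
    have h' : s(v, w) = s(v, w') := h
    exact Sym2.congr_right.1 h'
  refine ⟨(nbr R v).image (fun w => s(v, w)), ?_, ?_, ?_⟩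
  · rw [Finset.card_image_of_injective _ hinj]
    rfl
  · intro e he
    rw [Finset.mem_image] at he
    obtain ⟨w, -, rfl⟩ := he
    exact Sym2.mem_mk_left v w
  · intro χ
    have h1 : nbr (rg F R χ) v = nbr F v ∪ (nbr R v).filter (fun w => χ s(v, w) = true) := by
      ext w
      simp only [nbr, Finset.mem_filter, Finset.mem_univ, true_and, Finset.mem_union]
      rfl
    have h2 : Disjoint (nbr F v) ((nbr R v).filter (fun w => χ s(v, w) = true)) := by
      rw [Finset.disjoint_left]
      intro w hw hw'
      simp only [nbr, Finset.mem_filter, Finset.mem_univ, true_and] at hw hw'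
      have h3 : (F ⊓ R).Adj v w := ⟨hw, hw'.1⟩
      rw [hFR.eq_bot] at h3
      exact h3
    have h4 : ((nbr R v).image (fun w => s(v, w))).filter (fun e => χ e = true) =
        ((nbr R v).filter (fun w => χ s(v, w) = true)).image (fun w => s(v, w)) := by
      rw [Finset.filter_image]
    unfold dgr
    rw [h1, Finset.card_union_of_disjoint h2, h4, Finset.card_image_of_injective _ hinj]

theorem deg_ge_of (h : S_bin_ge) : S_deg_ge := by
  intro n F R hFR v t
  obtain ⟨S, hS, -, h1⟩ := dgr_formula n F R hFR v
  have h2 := h (Sym2 (Fin n)) S (t - dgr F v)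
  rw [hS] at h2
  rw [← h2]
  refine pr_congr fun χ => ?_
  rw [h1 χ]
  constructor
  · intro h3
    omega
  · intro h3
    omega

theorem deg_eq_of (h : S_bin_eq) : S_deg_eq := by
  intro n F R hFR v t
  obtain ⟨S, hS, -, h1⟩ := dgr_formula n F R hFR v
  have h2 := h (Sym2 (Fin n)) S (t - dgr F v)
  rw [hS] at h2
  rw [← h2]
  refine pr_mono fun χ h3 => ?_
  rw [h1 χ] at h3
  omega

/-- the coins of `u` without the coin of the pair `u v` -/
theorem split {n : ℕ} (F R : SimpleGraph (Fin n)) (hFR : Disjoint F R) (u v : Fin n)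
    (huv : u ≠ v) : ∃ A B : Finset (Sym2 (Fin n)), Disjoint A B ∧
      (∀ χ, dgr F u + (A.filter (fun e => χ e = true)).card ≤ dgr (rg F R χ) u ∧
        dgr (rg F R χ) u ≤ dgr F u + (A.filter (fun e => χ e = true)).card + 1) ∧
      (∀ χ, dgr F v + (B.filter (fun e => χ e = true)).card ≤ dgr (rg F R χ) v ∧
        dgr (rg F R χ) v ≤ dgr F v + (B.filter (fun e => χ e = true)).card + 1) := by
  classical
  obtain ⟨S, -, hS, h1⟩ := dgr_formula n F R hFR u
  obtain ⟨T, -, hT, h2⟩ := dgr_formula n F R hFR v
  have key : ∀ (S : Finset (Sym2 (Fin n))) (χ : Coins n),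
      ((S.erase s(u, v)).filter (fun e => χ e = true)).card ≤
        (S.filter (fun e => χ e = true)).card ∧
      (S.filter (fun e => χ e = true)).card ≤
        ((S.erase s(u, v)).filter (fun e => χ e = true)).card + 1 := by
    intro S χ
    rw [Finset.filter_erase]
    constructor
    · exact Finset.card_le_card (Finset.erase_subset _ _)
    · have := Finset.pred_card_le_card_erase (s := S.filter (fun e => χ e = true)) (a := s(u, v))
      omega
  refine ⟨S.erase s(u, v), T.erase s(u, v), ?_, ?_, ?_⟩
  · rw [Finset.disjoint_left]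
    intro e he he'
    rw [Finset.mem_erase] at he he'
    exact he.1 ((Sym2.mem_and_mem_iff huv).1 ⟨hS e he.2, hT e he'.2⟩)
  · intro χ
    have := key S χ
    rw [h1 χ]
    omega
  · intro χ
    have := key T χ
    rw [h2 χ]
    omega

theorem local_of {n : ℕ} (A : Finset (Sym2 (Fin n))) (p : ℕ → Prop) (χ χ' : Coins n)
    (h : ∀ i ∈ A, χ i = χ' i) (hp : p (A.filter (fun e => χ e = true)).card) :
    p (A.filter (fun e => χ' e = true)).card := by
  have : A.filter (fun e => χ' e = true) = A.filter (fun e => χ e = true) := by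
    refine Finset.filter_congr fun e he => ?_
    rw [h e he]
  rw [this]
  exact hp

theorem pair_of (h : S_indep) : S_pair := by
  classical
  intro n F R hFR u v k l huv
  obtain ⟨A, B, hAB, hA, hB⟩ := split F R hFR u v huv
  have h1 := h (Sym2 (Fin n)) A B hAB
    (fun χ => k - 1 ≤ dgr F u + (A.filter (fun e => χ e = true)).card)
    (fun χ => l - 1 ≤ dgr F v + (B.filter (fun e => χ e = true)).card)
    (fun χ χ' hc hp => local_of A (fun m => k - 1 ≤ dgr F u + m) χ χ' hc hp)
    (fun χ χ' hc hp => local_of B (fun m => l - 1 ≤ dgr F v + m) χ χ' hc hp)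
  calc pr (fun χ => k ≤ dgr (rg F R χ) u ∧ l ≤ dgr (rg F R χ) v)
      ≤ pr (fun χ : Coins n => k - 1 ≤ dgr F u + (A.filter (fun e => χ e = true)).card ∧
          l - 1 ≤ dgr F v + (B.filter (fun e => χ e = true)).card) := by
        refine pr_mono fun χ hχ => ?_
        have a1 := hA χ
        have a2 := hB χ
        omega
    _ = pr (fun χ : Coins n => k - 1 ≤ dgr F u + (A.filter (fun e => χ e = true)).card) *
          pr (fun χ : Coins n => l - 1 ≤ dgr F v + (B.filter (fun e => χ e = true)).card) := h1
    _ ≤ _ := by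
        refine mul_le_mul (pr_mono fun χ hχ => ?_) (pr_mono fun χ hχ => ?_) ?_ ?_
        · have a1 := hA χ
          omega
        · have a1 := hB χ
          omega
        · unfold pr
          positivity
        · unfold pr
          positivity

theorem pair_eq_of (h : S_indep) : S_pair_eq := by
  classical
  intro n F R hFR u v k l huv
  obtain ⟨A, B, hAB, hA, hB⟩ := split F R hFR u v huv
  have h1 := h (Sym2 (Fin n)) A B hAB
    (fun χ => k - 1 ≤ dgr F u + (A.filter (fun e => χ e = true)).card ∧
      dgr F u + (A.filter (fun e => χ e = true)).card ≤ k)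
    (fun χ => l - 1 ≤ dgr F v + (B.filter (fun e => χ e = true)).card ∧
      dgr F v + (B.filter (fun e => χ e = true)).card ≤ l)
    (fun χ χ' hc hp => local_of A (fun m => k - 1 ≤ dgr F u + m ∧ dgr F u + m ≤ k) χ χ' hc hp)
    (fun χ χ' hc hp => local_of B (fun m => l - 1 ≤ dgr F v + m ∧ dgr F v + m ≤ l) χ χ' hc hp)
  calc pr (fun χ => dgr (rg F R χ) u = k ∧ dgr (rg F R χ) v = l)
      ≤ pr (fun χ : Coins n => (k - 1 ≤ dgr F u + (A.filter (fun e => χ e = true)).card ∧
          dgr F u + (A.filter (fun e => χ e = true)).card ≤ k) ∧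
          (l - 1 ≤ dgr F v + (B.filter (fun e => χ e = true)).card ∧
          dgr F v + (B.filter (fun e => χ e = true)).card ≤ l)) := by
        refine pr_mono fun χ hχ => ?_
        have a1 := hA χ
        have a2 := hB χ
        omega
    _ = pr (fun χ : Coins n => k - 1 ≤ dgr F u + (A.filter (fun e => χ e = true)).card ∧
          dgr F u + (A.filter (fun e => χ e = true)).card ≤ k) *
          pr (fun χ : Coins n => l - 1 ≤ dgr F v + (B.filter (fun e => χ e = true)).card ∧
          dgr F v + (B.filter (fun e => χ e = true)).card ≤ l) := h1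
    _ ≤ _ := by
        refine mul_le_mul (pr_mono fun χ hχ => ?_) (pr_mono fun χ hχ => ?_) ?_ ?_
        · have a1 := hA χ
          omega
        · have a1 := hB χ
          omega
        · unfold pr
          positivity
        · unfold pr
          positivity

end Pool.Agent.Y232.RG
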